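import Mathlib
import Pool.Agent.H402.TreeTour

set_option autoImplicit false

namespace Pool.Agent.Results.MP_ae3412_co.LowerBound

/-- Let `Δ ≥ 3`, `k ≥ 2Δ - 1` and suppose that every tournament on `k + m` vertices contains every
oriented tree with `k` edges and maximum degree at most `Δ`. Then `m ≥ 2Δ - 3`. -/
theorem result : ∀ Δ k m : ℕ, 3 ≤ Δ → 2 * Δ - 1 ≤ k →
      (∀ R : Fin (k + m) → Fin (k + m) → Prop,
        (∀ a, ¬ R a a) →
        (∀ a b, a ≠ b → R a b ∨ R b a) →
        (∀ a b, R a b → ¬ R b a) →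
        ∀ E : Fin (k + 1) → Fin (k + 1) → Prop,
          (∀ a b, E a b → ¬ E b a) →
          (SimpleGraph.fromRel E).IsTree →
          (∀ v, ((SimpleGraph.fromRel E).neighborSet v).ncard ≤ Δ) →
          ∃ f : Fin (k + 1) → Fin (k + m),
            Function.Injective f ∧ ∀ a b, E a b → R (f a) (f b)) →
      2 * Δ - 3 ≤ m := by
  intro Δ k m hΔ hk h
  by_contra hm
  push Not at hm
  obtain ⟨R, hR1, hR2, T, hT1, hT2, hT3, hno⟩ := Pool.Agent.H402.TreeTour.disproof Δ hΔ k hk
  apply hno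
  have hle : k + m ≤ k + 2 * Δ - 4 := by omega
  let ι : Fin (k + m) → Fin (k + 2 * Δ - 4) := Fin.castLE hle
  have hι : Function.Injective ι := Fin.castLE_injective hle
  obtain ⟨f, hf, hfa⟩ := h (fun a b => R (ι a) (ι b))
    (fun a ha => hR2 _ _ ha ha)
    (fun a b hab => hR1 _ _ (fun hc => hab (hι hc)))
    (fun a b hab => hR2 _ _ hab) T hT1 hT2 hT3
  exact ⟨fun a => ι (f a), hι.comp hf, hfa⟩

end Pool.Agent.Results.MP_ae3412_co.LowerBound
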